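import Mathlib
import Pool.Agent.Work.MP_481a91_al.SD.FinalR

/-! # The stable centre is a unital subalgebra for reductive groups which are anisotropic modulo the centre

Question Q1 for the groups `G = H/Z₀` of the following form.  `F` is a nonarchimedean local field of characteristic zero (a finite
extension of the field of `p`-adic numbers), `K` its algebraic closure, `E_i` finitely many finite extensions of `F`, `D_i` a central
division algebra of finite dimension `n_i^2` over `E_i`, `A = ∏ D_i`, `H` a closed subgroup of `A^×` which contains `∏ SL_1(D_i)`,
`Zk` a subgroup of `(K ⊗ ∏ E_i)^×` which is stable under the Galois group of `F`, and `Z₀ = H ∩ Zk` is closed in `H`.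

Which groups are of this form (standard, not a part of the Lean proof).  All groups `G(F)`, `G` a connected reductive group over `F` which
is anisotropic modulo its centre.  For such a group `G_ad = ∏ Res PGL_1(D_i)` (theorems of Kneser and of Bruhat and Tits).  The group
`G' = G ×_(G_ad) ∏ Res GL_1(D_i)` is connected, its derived group is `∏ Res SL_1(D_i)` (a central isogeny onto a simply connected group), and
the kernel of `G' → G` is the induced torus `Z_A = ∏ Res G_m`, so that `G(F) = G'(F)/Z_A(F)` (Hilbert 90).  The kernel of `G' → ∏ Res
GL_1(D_i)` is central, and meets the derived group trivially, so that `G'` is a closed subgroup of `∏ Res GL_1(D_i) × S`, `S = G'/G'_der` a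
torus, and `S` is contained in an induced torus, that is, in a product of more factors `Res GL_1(D_j)` with `D_j = E_j`, `n_j = 1`.  So
`H = G'(F)`, and `Zk` is the group of `K`-points of `Z_A`, embedded by `z ↦ (z, the image of z in S)`.  (The topology of `E_i` is the one
over `F`: a complete field which is not separably closed has only one such topology, by a theorem of F. K. Schmidt.)  For a general
`Zk` the theorem is a statement about the group `H/Z₀`, which is then only a subgroup of the group of `F`-points of the quotient.

Definitions.  `SL_1(D)` is the group of elements of reduced norm one, the reduced norm being the determinant of `x` in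
`K_i ⊗ D = M_n(K_i)`, `K_i` the algebraic closure of `E_i`.  The group `G(K)` is `H'(K)/Zk`, where `H'(K)` acts by conjugation like
`(K ⊗ A)^×`: stable conjugacy (`StcG`) is conjugacy modulo `Zk` in the multiplicative group of `K ⊗ A`.  Strongly regular (`RegG`): `γ`
has `n_i` different eigenvalues for all `i`, so that its centralizer `T` is a torus, and `g γ g⁻¹ = z γ` with `g` in `(K ⊗ A)^×` and `z ∈ Zk`
only for `z = 1`, so that the centralizer of the class of `γ` is the torus `T/Zk`.  Both are independent of the choice of `γ`.  The
group `G` is compact modulo its centre `C`, so the orbital integral is the integral of `f (g ρ g⁻¹)` over `G/C` (the centralizers of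
stably conjugate strongly regular elements are isomorphic tori, so that they have the same volume modulo `C` for compatible
measures), and the stable orbital integral is the sum over a system of representatives of the conjugacy classes in the stable class;
the theorem includes that finite systems exist and that `G/C` is compact.

The stable centre is the algebra of the elements of the Bernstein centre which are invariant under conjugation by `∏ D_i^×`, that is,
under `G_ad(F)`.

Proof.  If `g γ g⁻¹ = z δ`, `γ` strongly regular, then `g⁻¹ σ(g)` normalizes in this way, so that `σ(z) = z` for all `σ` in the Galois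
group, `z ∈ ∏ E_i^×`, and `z δ` and `γ` are conjugate under `∏ D_i^×` (Skolem-Noether; the proof uses only that `D ⊗ D^op` acts
faithfully on `D`), `z ∈ H`.  The reduced norm has values in `E_i` and is continuous; elements near `1` of `E_i` are `n`-th powers, so
that `E_i^×` is finite modulo `n`-th powers and `D^×/E^× SL_1(D)` is finite; strongly regular elements are dense.  If `f` has vanishing
stable orbital integrals, then the average of `f` over `G/C` and over a finite group of outer automorphisms vanishes on the strongly
regular elements, hence is zero, and an invariant distribution is zero on `f`. -/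

set_option autoImplicit false

namespace Pool.Agent.Results.MP_481a91_al.AnisotropicModuloCentre

open Pool.Agent.Work.MP_481a91_al.SD
open scoped TensorProduct
open MeasureTheory

universe u

theorem result (F : Type u) [NontriviallyNormedField F] [ProperSpace F] [IsUltrametricDist F] [CharZero F] (N : ℕ)
    (E D : Fin N → Type u) [∀ i, NontriviallyNormedField (E i)] [∀ i, ProperSpace (E i)] [∀ i, IsUltrametricDist (E i)]
    [∀ i, CharZero (E i)] [∀ i, Algebra F (E i)] [∀ i, FiniteDimensional F (E i)] [∀ i, DivisionRing (D i)]
    [∀ i, Algebra (E i) (D i)] [∀ i, Algebra F (D i)] [∀ i, IsScalarTower F (E i) (D i)] [∀ i, FiniteDimensional (E i) (D i)]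
    [∀ i, Algebra.IsCentral (E i) (D i)] [∀ i, TopologicalSpace (D i)] [∀ i, IsTopologicalRing (D i)]
    [∀ i, ContinuousSMul (E i) (D i)] [∀ i, T2Space (D i)] (n : Fin N → ℕ) (φ : Spl E D n) (Zk : Subgroup (ZT F E))
    (hG : GStT F E Zk) : Q1H (PS1 φ) Zk (EqZ F) (Cj F) (RegP φ) :=
  finalR.{u} F N E D n φ Zk hG

end Pool.Agent.Results.MP_481a91_al.AnisotropicModuloCentre
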